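import Pool.Agent.Helper40_Dio.FStmt

set_option autoImplicit false

/-! # DIO, Part F, module BEX (helper4): in the remaining type `c` is not much larger than
`{a, b, f}`. -/

namespace Pool.Agent.DIO.H4B

/-! ### Inequalities -/

theorem absT (a b M μ ν Y ε : ℤ) (ha : 0 ≤ a) (haM : a ≤ M) (hb : 0 ≤ b) (hbM : b ≤ M)
    (hμ : 0 ≤ μ) (hμY : μ ≤ Y) (hν : 0 ≤ ν) (hνY : ν ≤ Y) (hε : ε = 1 ∨ ε = -1) :
    |2 * ε * (a * μ ^ 2 - b * ν ^ 2)| ≤ 2 * M * Y ^ 2 := by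
  have h1 : a * μ ^ 2 ≤ M * Y ^ 2 :=
    mul_le_mul haM (pow_le_pow_left₀ hμ hμY 2) (by positivity) (by linarith)
  have h2 : b * ν ^ 2 ≤ M * Y ^ 2 :=
    mul_le_mul hbM (pow_le_pow_left₀ hν hνY 2) (by positivity) (by linarith)
  have h3 : 0 ≤ a * μ ^ 2 := by positivity
  have h4 : 0 ≤ b * ν ^ 2 := by positivity
  rw [abs_le]
  rcases hε with rfl | rfl
  · constructor <;> linarith
  · constructor <;> linarith

theorem e_diff (e1 e2 μ ν Y : ℤ) (he2 : 0 ≤ e2) (he : e2 ≤ e1) (hν : 0 ≤ ν) (hμν : ν < μ)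
    (hμY : μ ≤ Y) : e1 * (μ - ν) ≤ e1 * μ - e2 * ν ∧ e1 ≤ e1 * (μ - ν) ∧
      e1 * μ - e2 * ν ≤ e1 * Y := by
  have h1 : e2 * ν ≤ e1 * ν := mul_le_mul_of_nonneg_right he hν
  have h2 : e1 * 1 ≤ e1 * (μ - ν) := mul_le_mul_of_nonneg_left (by linarith) (by linarith)
  have h3 : e1 * μ ≤ e1 * Y := mul_le_mul_of_nonneg_left hμY (by linarith)
  have h4 : 0 ≤ e2 * ν := mul_nonneg he2 hν
  refine ⟨?_, ?_, ?_⟩
  · rw [mul_sub]; linarith
  · linarith
  · linarith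

theorem caseX (T a b f e1 e2 c k μ ν Y M : ℤ) (hT : |T| ≤ 2 * M * Y ^ 2) (ha : 0 ≤ a)
    (haM : a ≤ M) (hb : 0 ≤ b) (hbM : b ≤ M) (hf : 0 ≤ f) (hfM : f ≤ M) (hν : 1 ≤ ν)
    (hμν : ν < μ) (hμY : μ ≤ Y) (hY : 100 ≤ Y) (he2 : 0 ≤ e2) (he : e2 ≤ e1)
    (h1 : 8 * (Y ^ 2 * M) < c) (h2 : 8 * (e1 * Y) < c)
    (hk : T + (a + f - e1) * μ - (b + f - e2) * ν = c * k) : k = 0 ∧ e1 ≤ 3 * (Y ^ 2 * M) := by
  obtain ⟨d1, d2, d3⟩ := e_diff e1 e2 μ ν Y he2 he (by linarith) hμν hμY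
  have hM : 0 ≤ M := ha.trans haM
  have p1 : a * μ ≤ M * Y := mul_le_mul haM hμY (by linarith) hM
  have p2 : f * μ ≤ M * Y := mul_le_mul hfM hμY (by linarith) hM
  have p3 : b * ν ≤ M * Y := mul_le_mul hbM (by linarith) (by linarith) hM
  have p4 : f * ν ≤ M * Y := mul_le_mul hfM (by linarith) (by linarith) hM
  have q1 : 0 ≤ a * μ := mul_nonneg ha (by linarith)
  have q2 : 0 ≤ f * μ := mul_nonneg hf (by linarith)
  have q3 : 0 ≤ b * ν := mul_nonneg hb (by linarith)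
  have q4 : 0 ≤ f * ν := mul_nonneg hf (by linarith)
  have r1 : 100 * (M * Y) ≤ Y ^ 2 * M := by
    have : 100 * (M * Y) ≤ Y * (M * Y) :=
      mul_le_mul_of_nonneg_right hY (mul_nonneg hM (by linarith))
    linarith [show Y * (M * Y) = Y ^ 2 * M by ring]
  obtain ⟨t1, t2⟩ := abs_le.1 hT
  have e3 : 2 * M * Y ^ 2 = 2 * (Y ^ 2 * M) := by ring
  rw [e3] at t1 t2
  have e4 : (a + f - e1) * μ - (b + f - e2) * ν = a * μ + f * μ - b * ν - f * ν -
      (e1 * μ - e2 * ν) := by ring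
  have hk0 : k = 0 := by
    have hc : 0 < c := by
      have : 0 ≤ Y ^ 2 * M := by positivity
      linarith
    have u1 : c * k < c * 1 := by linarith
    have u2 : c * (-1) < c * k := by linarith
    have u3 := lt_of_mul_lt_mul_left u1 hc.le
    have u4 := lt_of_mul_lt_mul_left u2 hc.le
    omega
  refine ⟨hk0, ?_⟩
  rw [hk0, mul_zero] at hk
  linarith

theorem caseN1 (T a b f e1 e2 c k μ ν Y L : ℤ) (hT : |T| ≤ 2 * L * Y ^ 2) (ha : 0 ≤ a)
    (haL : a ≤ L) (hb : 0 ≤ b) (hbL : b ≤ L) (hf : 5 * (Y ^ 2 * L) ≤ f) (hν : 1 ≤ ν)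
    (hμν : ν < μ) (hμY : μ ≤ Y) (hY : 100 ≤ Y) (he2 : 0 ≤ e2) (he : e2 ≤ e1)
    (h2 : 4 * (e1 * Y) < c)
    (hk : T + (a + f - e1) * μ - (b + f - e2) * ν = c * k) : c ≤ 4 * (f * Y) ∨ e1 ≤ 2 * f := by
  obtain ⟨d1, d2, d3⟩ := e_diff e1 e2 μ ν Y he2 he (by linarith) hμν hμY
  have hL : 0 ≤ L := ha.trans haL
  have hf0 : 0 ≤ f := le_trans (by positivity) hf
  have p1 : a * μ ≤ L * Y := mul_le_mul haL hμY (by linarith) hL
  have p3 : b * ν ≤ L * Y := mul_le_mul hbL (by linarith) (by linarith) hL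
  have q1 : 0 ≤ a * μ := mul_nonneg ha (by linarith)
  have q3 : 0 ≤ b * ν := mul_nonneg hb (by linarith)
  have r1 : 100 * (L * Y) ≤ Y ^ 2 * L := by
    have : 100 * (L * Y) ≤ Y * (L * Y) :=
      mul_le_mul_of_nonneg_right hY (mul_nonneg hL (by linarith))
    linarith [show Y * (L * Y) = Y ^ 2 * L by ring]
  have r2 : 0 ≤ f * (μ - ν) := mul_nonneg hf0 (by linarith)
  have r3 : f * (μ - ν) ≤ f * Y := mul_le_mul_of_nonneg_left (by linarith) hf0
  have r4 : f * 100 ≤ f * Y := mul_le_mul_of_nonneg_left hY hf0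
  obtain ⟨t1, t2⟩ := abs_le.1 hT
  have e3 : 2 * L * Y ^ 2 = 2 * (Y ^ 2 * L) := by ring
  rw [e3] at t1 t2
  have e4 : (a + f - e1) * μ - (b + f - e2) * ν = a * μ - b * ν + f * (μ - ν) -
      (e1 * μ - e2 * ν) := by ring
  by_cases hk0 : k = 0
  · right
    rw [hk0, mul_zero] at hk
    have h5 : (e1 - f) * (μ - ν) ≤ 3 * (Y ^ 2 * L) := by
      have : (e1 - f) * (μ - ν) = e1 * (μ - ν) - f * (μ - ν) := by ring
      rw [this]
      linarith
    rcases le_total e1 f with h | h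
    · linarith
    · have h6 : (e1 - f) * 1 ≤ (e1 - f) * (μ - ν) :=
        mul_le_mul_of_nonneg_left (by linarith) (by linarith)
      linarith
  · left
    have hc : 0 < c := by
      have : 0 ≤ e1 * Y := mul_nonneg (he2.trans he) (by linarith)
      linarith
    have h5 : c ≤ |c * k| := by
      rw [abs_mul, abs_of_pos hc]
      exact le_mul_of_one_le_right hc.le (Int.one_le_abs hk0)
    have h6 : |c * k| ≤ 3 * (Y ^ 2 * L) + f * Y + e1 * Y := by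
      rw [abs_le]
      constructor <;> linarith
    linarith

theorem caseN2k (T a b f e1 e2 c k μ ν Y : ℤ) (hT : |T| ≤ 2 * b * Y ^ 2) (ha : 0 ≤ a)
    (hab : a ≤ b) (hb : 0 ≤ b) (hf : 0 ≤ f) (hfb : f ≤ b) (hν : 1 ≤ ν)
    (hμν : ν < μ) (hμY : μ ≤ Y) (hY : 100 ≤ Y) (he2 : 0 ≤ e2) (he : e2 ≤ e1)
    (h1 : 4 * b < c) (h2 : 4 * e1 < c)
    (hk : T + (a + f - e1) * μ - (b + f - e2) * ν = c * k) : |k| ≤ Y ^ 2 := by
  obtain ⟨d1, d2, d3⟩ := e_diff e1 e2 μ ν Y he2 he (by linarith) hμν hμY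
  have p1 : a * μ ≤ b * Y := mul_le_mul hab hμY (by linarith) hb
  have p2 : f * μ ≤ b * Y := mul_le_mul hfb hμY (by linarith) hb
  have p3 : b * ν ≤ b * Y := mul_le_mul_of_nonneg_left (by linarith) hb
  have p4 : f * ν ≤ b * Y := mul_le_mul hfb (by linarith) (by linarith) hb
  have q1 : 0 ≤ a * μ := mul_nonneg ha (by linarith)
  have q2 : 0 ≤ f * μ := mul_nonneg hf (by linarith)
  have q3 : 0 ≤ b * ν := mul_nonneg hb (by linarith)
  have q4 : 0 ≤ f * ν := mul_nonneg hf (by linarith)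
  have hY0 : 0 ≤ Y := by linarith
  obtain ⟨t1, t2⟩ := abs_le.1 hT
  have e4 : (a + f - e1) * μ - (b + f - e2) * ν = a * μ + f * μ - b * ν - f * ν -
      (e1 * μ - e2 * ν) := by ring
  have hc : 0 < c := by linarith
  have h6 : |c * k| ≤ 2 * b * Y ^ 2 + 2 * (b * Y) + e1 * Y := by
    rw [abs_le]
    constructor <;> linarith
  rw [abs_mul, abs_of_pos hc] at h6
  have s1 : 4 * b * Y ^ 2 ≤ c * Y ^ 2 := mul_le_mul_of_nonneg_right h1.le (by positivity)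
  have s2 : 4 * b * Y ≤ c * Y := mul_le_mul_of_nonneg_right h1.le hY0
  have s3 : 4 * e1 * Y ≤ c * Y := mul_le_mul_of_nonneg_right h2.le hY0
  have s4 : c * Y * 100 ≤ c * Y * Y := mul_le_mul_of_nonneg_left hY (by positivity)
  have s5 : c * Y * Y = c * Y ^ 2 := by ring
  have s6 : 0 ≤ c * Y := by positivity
  have h7 : c * |k| ≤ c * Y ^ 2 := by
    have e5 : 4 * b * Y ^ 2 = 2 * (2 * b * Y ^ 2) := by ring
    have e6 : 4 * b * Y = 4 * (b * Y) := by ring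
    have e7 : 4 * e1 * Y = 4 * (e1 * Y) := by ring
    rw [e5] at s1
    rw [e6] at s2
    rw [e7] at s3
    rw [s5] at s4
    linarith
  exact le_of_mul_le_mul_left h7 hc

theorem caseN2 (a b f e1 e2 k μ ν Y N F1 ε : ℤ) (hε : ε = 1 ∨ ε = -1) (ha : 0 ≤ a)
    (haL : a ≤ Y ^ 10) (hf : 0 ≤ f) (hfL : f ≤ Y ^ 10) (hb : Y ^ 100 ≤ b) (hν : 1 ≤ ν)
    (hμν : ν < μ) (hμY : μ ≤ Y) (hY : 100 ≤ Y) (he2 : 0 ≤ e2) (hkY : |k| ≤ Y ^ 2)
    (hk : 2 * ε * (a * μ ^ 2 - b * ν ^ 2) + (a + f - e1) * μ - (b + f - e2) * ν =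
      (a + f + e1 + 2 * (a * f * e1) + 2 * (F1 * N)) * k)
    (hbe : b * e2 ≤ 4 * (Y ^ 10 * e1))
    (hI : e1 ≤ 10 * (Y ^ 23) ^ 3 *
      (|(μ + k * (1 + 2 * (a * f))) * e1 + (2 * k * F1) * N| + 1)) :
    e1 ≤ Y ^ 72 * b := by
  have hY1 : 1 ≤ Y := by linarith
  have hY0 : 0 ≤ Y := by linarith
  have hb0 : 0 ≤ b := le_trans (by positivity) hb
  have hkey : (μ + k * (1 + 2 * (a * f))) * e1 + (2 * k * F1) * N =
      -(b * (2 * ε * ν ^ 2 + ν)) + e2 * ν + (2 * ε * (a * μ ^ 2) + (a + f) * μ - f * ν -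
        k * (a + f)) := by
    linear_combination -hk
  have ν0 : 0 ≤ ν := by linarith
  have νY : ν ≤ Y := by linarith
  have μ0 : 0 ≤ μ := by linarith
  have ν2 : ν ^ 2 ≤ Y ^ 2 := pow_le_pow_left₀ ν0 νY 2
  have μ2 : μ ^ 2 ≤ Y ^ 2 := pow_le_pow_left₀ μ0 hμY 2
  have Y2 : 100 * Y ≤ Y ^ 2 := by
    rw [sq]
    exact mul_le_mul_of_nonneg_right hY hY0
  have ν20 : 0 ≤ ν ^ 2 := by positivity
  have b1 : |b * (2 * ε * ν ^ 2 + ν)| ≤ b * (3 * Y ^ 2) := by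
    rw [abs_mul, abs_of_nonneg hb0]
    refine mul_le_mul_of_nonneg_left ?_ hb0
    rw [abs_le]
    rcases hε with rfl | rfl
    · constructor <;> linarith
    · constructor <;> linarith
  have b2 : |e2 * ν| ≤ e2 * Y := by
    rw [abs_of_nonneg (mul_nonneg he2 ν0)]
    exact mul_le_mul_of_nonneg_left νY he2
  have L0 : 0 ≤ Y ^ 10 := by positivity
  have m1 : a * μ ^ 2 ≤ Y ^ 10 * Y ^ 2 := mul_le_mul haL μ2 (by positivity) L0
  have m10 : 0 ≤ a * μ ^ 2 := by positivity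
  have m2 : a * μ ≤ Y ^ 10 * Y := mul_le_mul haL hμY μ0 L0
  have m20 : 0 ≤ a * μ := mul_nonneg ha μ0
  have m3 : f * μ ≤ Y ^ 10 * Y := mul_le_mul hfL hμY μ0 L0
  have m30 : 0 ≤ f * μ := mul_nonneg hf μ0
  have m4 : f * ν ≤ Y ^ 10 * Y := mul_le_mul hfL νY ν0 L0
  have m40 : 0 ≤ f * ν := mul_nonneg hf ν0
  have m5 : |k * (a + f)| ≤ Y ^ 2 * (2 * Y ^ 10) := by
    rw [abs_mul, abs_of_nonneg (by linarith : 0 ≤ a + f)]
    exact mul_le_mul hkY (by linarith) (by linarith) (by positivity)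
  have m6 : Y ^ 10 * (100 * Y) ≤ Y ^ 10 * Y ^ 2 := mul_le_mul_of_nonneg_left Y2 L0
  have b3 : |2 * ε * (a * μ ^ 2) + (a + f) * μ - f * ν - k * (a + f)| ≤ 5 * (Y ^ 10 * Y ^ 2) := by
    obtain ⟨k1, k2⟩ := abs_le.1 m5
    have e1' : (a + f) * μ = a * μ + f * μ := by ring
    have e2' : Y ^ 2 * (2 * Y ^ 10) = 2 * (Y ^ 10 * Y ^ 2) := by ring
    have e3' : Y ^ 10 * (100 * Y) = 100 * (Y ^ 10 * Y) := by ring
    rw [e1']
    rw [e2'] at k1 k2
    rw [e3'] at m6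
    have m7 : 0 ≤ Y ^ 10 * Y := by positivity
    rw [abs_le]
    rcases hε with rfl | rfl
    · constructor <;> linarith
    · constructor <;> linarith
  have b4 : 5 * (Y ^ 10 * Y ^ 2) + 1 ≤ b := by
    refine le_trans ?_ hb
    have h1 : Y ^ 10 * Y ^ 2 = Y ^ 12 := by ring
    have h2 : (1 : ℤ) ≤ Y ^ 12 := one_le_pow₀ hY1
    have h3 : Y ^ 12 * 100 ≤ Y ^ 12 * Y := mul_le_mul_of_nonneg_left hY (by positivity)
    have h4 : Y ^ 12 * Y = Y ^ 13 := by ring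
    have h5 : Y ^ 13 ≤ Y ^ 100 := pow_le_pow_right₀ hY1 (by norm_num)
    rw [h1]
    linarith
  have b5 : |(μ + k * (1 + 2 * (a * f))) * e1 + (2 * k * F1) * N| + 1 ≤
      b * (3 * Y ^ 2) + e2 * Y + b := by
    rw [hkey]
    have h1 := abs_add_le (-(b * (2 * ε * ν ^ 2 + ν)) + e2 * ν)
      (2 * ε * (a * μ ^ 2) + (a + f) * μ - f * ν - k * (a + f))
    have h2 := abs_add_le (-(b * (2 * ε * ν ^ 2 + ν))) (e2 * ν)
    rw [abs_neg] at h2
    linarith
  have b6 : b ≤ b * Y ^ 2 := le_mul_of_one_le_right hb0 (one_le_pow₀ hY1)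
  have b7 : e1 ≤ 10 * Y ^ 69 * (4 * (b * Y ^ 2) + e2 * Y) := by
    refine hI.trans ?_
    have e3' : (Y ^ 23) ^ 3 = Y ^ 69 := by ring
    rw [e3']
    refine mul_le_mul_of_nonneg_left ?_ (by positivity)
    refine b5.trans ?_
    have : b * (3 * Y ^ 2) = 3 * (b * Y ^ 2) := by ring
    rw [this]
    linarith
  -- the term with `e2`
  have c1 : Y ^ 90 * e2 ≤ 4 * e1 := by
    have h1 : Y ^ 10 * (Y ^ 90 * e2) ≤ Y ^ 10 * (4 * e1) := by
      calc Y ^ 10 * (Y ^ 90 * e2) = Y ^ 100 * e2 := by ring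
        _ ≤ b * e2 := mul_le_mul_of_nonneg_right hb he2
        _ ≤ 4 * (Y ^ 10 * e1) := hbe
        _ = Y ^ 10 * (4 * e1) := by ring
    exact le_of_mul_le_mul_left h1 (by positivity)
  have c2 : 80 * (Y ^ 70 * e2) ≤ Y ^ 90 * e2 := by
    have h1 : (80 : ℤ) ≤ Y ^ 20 := by
      have : Y ^ 1 ≤ Y ^ 20 := pow_le_pow_right₀ hY1 (by norm_num)
      rw [pow_one] at this
      linarith
    have h2 : 80 * (Y ^ 70 * e2) ≤ Y ^ 20 * (Y ^ 70 * e2) :=
      mul_le_mul_of_nonneg_right h1 (by positivity)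
    have h3 : Y ^ 20 * (Y ^ 70 * e2) = Y ^ 90 * e2 := by ring
    rw [h3] at h2
    exact h2
  have c3 : 10 * Y ^ 69 * (4 * (b * Y ^ 2) + e2 * Y) = 40 * (Y ^ 71 * b) + 10 * (Y ^ 70 * e2) := by
    ring
  rw [c3] at b7
  have c4 : 80 * (Y ^ 71 * b) ≤ Y ^ 72 * b := by
    have h1 : 80 * (Y ^ 71 * b) ≤ Y * (Y ^ 71 * b) :=
      mul_le_mul_of_nonneg_right (by linarith) (by positivity)
    have h3 : Y * (Y ^ 71 * b) = Y ^ 72 * b := by ring
    rw [h3] at h1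
    exact h1
  linarith

/-! ### Structure -/

/-- the lower extension of `{x, y, c}` -/
theorem lowc (hN : NetStatement) (x y c ρ σ τ : ℕ) (hx : 0 < x) (hy : 0 < y) (hxy : x ≠ y)
    (hxc : x < c) (hyc : y < c) (hρ : ρ * ρ = x * y + 1) (hσ : σ * σ = x * c + 1)
    (hτ : τ * τ = y * c + 1) (hne : c ≠ x + y + 2 * ρ) :
    ∃ e u v : ℕ, 0 < e ∧ u * u = x * e + 1 ∧ v * v = y * e + 1 ∧
      c = x + y + e + 2 * (x * y * e) + 2 * (ρ * (u * v)) ∧ σ = x * v + ρ * u ∧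
      τ = y * u + ρ * v ∧ 4 * (x * y * e) < c ∧ c ≤ 16 * (x * y * e) := by
  rcases lt_or_gt_of_ne hxy with h1 | h1
  · rcases hN x y c ρ σ τ hx h1 hyc hρ hσ hτ with h2 | ⟨e, u, v, w, h2⟩
    · exact absurd h2 hne
    · refine ⟨e, u, v, h2.hg, h2.hu, h2.hv, ?_, h2.s_eq, h2.t_eq, h2.c_gt, h2.c_le⟩
      have := h2.hc
      rw [this]; ring
  · rcases hN y x c ρ τ σ hy h1 hxc (by rw [hρ]; ring) hτ hσ with h2 | ⟨e, v, u, w, h2⟩
    · exact absurd (by rw [h2]; ring) hne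
    · have e1 : x * y * e = y * x * e := by ring
      refine ⟨e, u, v, h2.hg, h2.hv, h2.hu, ?_, h2.t_eq, h2.s_eq, ?_, ?_⟩
      · have := h2.hc
        rw [this]; ring
      · rw [e1]; exact h2.c_gt
      · rw [e1]; exact h2.c_le

/-- `4 x y < c` when there is a further element `d` -/
theorem big (hN : NetStatement) (hS : NseStatement) (x y c d ρ σ τ : ℕ) (hx : 0 < x)
    (hxy : x < y) (hyc : y < c) (hd : 0 < d) (hdx : d ≠ x) (hdy : d ≠ y) (hdc : d < c)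
    (hρ : ρ * ρ = x * y + 1) (hσ : σ * σ = x * c + 1) (hτ : τ * τ = y * c + 1)
    (sx : IsSquare (x * d + 1)) (sy : IsSquare (y * d + 1)) (sc : IsSquare (c * d + 1)) :
    4 * (x * y) < c := by
  rcases hN x y c ρ σ τ hx hxy hyc hρ hσ hτ with h | ⟨g, u, v, w, h⟩
  · exact absurd ⟨hd, hdx, hdy, hdc.ne, sx, sy, sc⟩ (hS x y c ρ d ⟨hx, hxy, hρ, h⟩ hdc)
  · have h1 := h.c_gt
    have h3 : x * y ≤ x * y * g := Nat.le_mul_of_pos_right _ h.hg
    omega

/-- the formula for the lower extension -/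
theorem eform (x y c e ρ u v σ τ : ℤ) (hρ : ρ * ρ = x * y + 1) (hu : u * u = x * e + 1)
    (hv : v * v = y * e + 1) (hc : c = x + y + e + 2 * (x * y * e) + 2 * (ρ * (u * v)))
    (hσ : σ = x * v + ρ * u) (hτ : τ = y * u + ρ * v) :
    e = x + c + y + 2 * x * c * y - 2 * σ * ρ * τ := by
  have h1 : σ * τ = u * v * (x * y + ρ * ρ) + ρ * (x * (v * v) + y * (u * u)) := by
    rw [hσ, hτ]; ring
  have h2 : 2 * σ * ρ * τ = 2 * (ρ * (σ * τ)) := by ring
  rw [h2, h1, hu, hv]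
  have h3 : ρ * (u * v * (x * y + ρ * ρ) + ρ * (x * (y * e + 1) + y * (x * e + 1))) =
      (ρ * (u * v)) * (x * y + ρ * ρ) + (ρ * ρ) * (2 * x * y * e + x + y) := by ring
  rw [h3, hρ]
  have h4 : 2 * (ρ * (u * v)) = c - (x + y + e + 2 * (x * y * e)) := by linarith
  have h5 : 2 * (ρ * (u * v) * (x * y + (x * y + 1)) + (x * y + 1) * (2 * x * y * e + x + y)) =
      (2 * (ρ * (u * v))) * (2 * (x * y) + 1) + 2 * ((x * y + 1) * (2 * x * y * e + x + y)) := by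
    ring
  rw [h5, h4]
  ring

theorem bex (hN : NetStatement) (hS : NseStatement) (hM : MceStatement) (hI : IrrStatement) :
    BexStatement := by
  intro a b c d r s t g u v w x y z f W F1 F2 ε μ ν Y b1 c1 hC hE hT hf hνμ hμY hY hcase hc1
  have hT' := hT
  obtain ⟨hε, hW, hF1, hF2, hfc, hμ1, hν1, -, -⟩ := hT
  have ha := hC.ha
  have hab := hC.hab
  have hbc := hC.hbc
  have hr := hC.hr
  have hs := hC.hs
  have ht := hC.ht
  have hb : 0 < b := by omega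
  have hfc' : f < c := by omega
  have hWf : W * W = f * c + 1 := by rw [hW]; ring
  have sab : IsSquare (a * b + 1) := ⟨r, hr.symm⟩
  have sac : IsSquare (a * c + 1) := ⟨s, hs.symm⟩
  have saf : IsSquare (a * f + 1) := ⟨F1, hF1.symm⟩
  have sbf : IsSquare (b * f + 1) := ⟨F2, hF2.symm⟩
  have hY1 : 1 ≤ Y := by omega
  -- the sorted data
  have hsort : 4 * (b1 * c1) < c ∧ a ≤ c1 ∧ b ≤ c1 ∧ f ≤ c1 ∧ a ≠ f ∧ b ≠ f ∧
      a * f ≤ b1 * c1 ∧ b * f ≤ b1 * c1 ∧ b1 ≤ a * f ∧ b1 < c1 ∧ a ≤ b1 ∧ 2 ≤ b1 := by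
    rcases hcase with ⟨h1, rfl, rfl⟩ | ⟨h0, h1, rfl, rfl⟩ | ⟨h1, rfl, rfl⟩
    · refine ⟨big hN hS b1 c1 c a F2 t W hb h1 hfc' ha (by omega) (by omega) (by omega) hF2 ht hWf
        (by rw [mul_comm]; exact sab) (by rw [mul_comm]; exact saf)
        (by rw [mul_comm]; exact sac), by omega, by omega, le_rfl, by omega, by omega,
        Nat.mul_le_mul_right _ hab.le, le_rfl, ?_, h1, hab.le, by omega⟩
      calc b1 ≤ c1 := h1.le
        _ ≤ a * c1 := Nat.le_mul_of_pos_left _ ha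
    · refine ⟨big hN hS b1 c1 c a F2 W t hf h1 hbc ha (by omega) (by omega) (by omega)
        (by rw [hF2]; ring) hWf ht (by rw [mul_comm]; exact saf) (by rw [mul_comm]; exact sab)
        (by rw [mul_comm]; exact sac), by omega, by omega, by omega, by omega, by omega,
        ?_, by rw [mul_comm], Nat.le_mul_of_pos_left _ ha, h1, h0.le, by omega⟩
      rw [mul_comm]
      exact Nat.mul_le_mul_left _ hab.le
    · refine ⟨big hN hS b1 c1 c f r s t ha hab hbc hf (by omega) (by omega) (by omega)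
        hr hs ht saf sbf ⟨W, hW.symm⟩, by omega, by omega, by omega, by omega, by omega,
        Nat.mul_le_mul_left _ (by omega), ?_, Nat.le_mul_of_pos_right _ hf, hab, le_rfl, by omega⟩
      rw [mul_comm c1 f]
      exact Nat.mul_le_mul_right _ h1.le
  obtain ⟨hbig, hac1, hbc1, hfc1, haf, hbf, haf1, hbf1, hb1af, hb1c1, hab1, hb12⟩ := hsort
  have hc1big : 8 * c1 < c := by
    have : 2 * c1 ≤ b1 * c1 := Nat.mul_le_mul_right _ hb12
    omega
  have hFle : ∀ X m : ℕ, X * X = m + 1 → m ≤ b1 * c1 → X ≤ c1 := by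
    intro X m hX hm
    by_contra hc
    have h1 : (c1 + 1) * (c1 + 1) ≤ X * X := Nat.mul_le_mul (by omega) (by omega)
    have h2 : b1 * c1 ≤ c1 * c1 := Nat.mul_le_mul_right _ hb1c1.le
    have h3 : (c1 + 1) * (c1 + 1) = c1 * c1 + 2 * c1 + 1 := by ring
    omega
  have hF1c := hFle F1 (a * f) hF1 haf1
  have hF2c := hFle F2 (b * f) hF2 hbf1
  obtain ⟨e1, u1, v1, he1, hu1, hv1, hc_1, hs1, hW1, hlt1, hle1⟩ :=
    lowc hN a f c F1 s W ha hf haf (by omega) hfc' hF1 hs hWf (by omega)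
  obtain ⟨e2, u2, v2, he2, hu2, hv2, hc_2, ht2, hW2, hlt2, hle2⟩ :=
    lowc hN b f c F2 t W hb hf hbf hbc hfc' hF2 ht hWf (by omega)
  -- `e2 < e1`
  have he21 : e2 ≤ e1 := by
    by_contra hc
    rw [not_le] at hc
    have h1 : u1 < u2 := by
      refine Nat.mul_self_lt_mul_self_iff.1 ?_
      rw [hu1, hu2]
      have : a * e1 < b * e2 := Nat.mul_lt_mul_of_lt_of_lt hab hc
      omega
    have h2 : v1 ≤ v2 := by
      refine Nat.mul_self_le_mul_self_iff.1 ?_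
      rw [hv1, hv2]
      have : f * e1 ≤ f * e2 := Nat.mul_le_mul_left _ hc.le
      omega
    have h3 : F1 ≤ F2 := by
      refine Nat.mul_self_le_mul_self_iff.1 ?_
      rw [hF1, hF2]
      have : a * f ≤ b * f := Nat.mul_le_mul_right _ hab.le
      omega
    have h4 : f * u1 < f * u2 := Nat.mul_lt_mul_of_pos_left h1 hf
    have h5 : F1 * v1 ≤ F2 * v2 := Nat.mul_le_mul h3 h2
    omega
  -- the relation
  have hf1 : (e1 : ℤ) = a + c + f + 2 * a * c * f - 2 * s * F1 * W :=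
    eform a f c e1 F1 u1 v1 s W (by exact_mod_cast hF1) (by exact_mod_cast hu1)
      (by exact_mod_cast hv1) (by exact_mod_cast hc_1) (by exact_mod_cast hs1)
      (by exact_mod_cast hW1)
  have hf2 : (e2 : ℤ) = b + c + f + 2 * b * c * f - 2 * t * F2 * W :=
    eform b f c e2 F2 u2 v2 t W (by exact_mod_cast hF2) (by exact_mod_cast hu2)
      (by exact_mod_cast hv2) (by exact_mod_cast hc_2) (by exact_mod_cast ht2)
      (by exact_mod_cast hW2)
  obtain ⟨k, hk⟩ := hM a b c s t x y z f W F1 F2 ε e1 e2 μ ν hs ht hT' hf1 hf2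
  have hνY : ν ≤ Y := by omega
  -- integer casts
  have haZ : (0 : ℤ) ≤ a := Int.natCast_nonneg _
  have hbZ : (0 : ℤ) ≤ b := Int.natCast_nonneg _
  have hfZ : (0 : ℤ) ≤ f := Int.natCast_nonneg _
  have he2Z : (0 : ℤ) ≤ e2 := Int.natCast_nonneg _
  have he21Z : (e2 : ℤ) ≤ e1 := by exact_mod_cast he21
  have hμZ : (0 : ℤ) ≤ μ := Int.natCast_nonneg _
  have hνZ0 : (0 : ℤ) ≤ ν := Int.natCast_nonneg _
  have hνZ : (1 : ℤ) ≤ ν := by exact_mod_cast hν1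
  have hνμZ : (ν : ℤ) < μ := by exact_mod_cast hνμ
  have hμYZ : (μ : ℤ) ≤ Y := by exact_mod_cast hμY
  have hνYZ : (ν : ℤ) ≤ Y := by exact_mod_cast hνY
  have hYZ : (100 : ℤ) ≤ Y := by exact_mod_cast hY
  have hb1e : 4 * (b1 * e1) < c := by
    have h1 : b1 * e1 ≤ a * f * e1 := Nat.mul_le_mul_right _ hb1af
    omega
  have hfin : ∀ m n : ℕ, m ≤ 79 → n ≤ Y * Y ^ m * (b1 * c1 ^ 2) →
      n ≤ Y ^ 80 * b1 * c1 ^ 2 := by
    intro m n hm hn
    refine hn.trans ?_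
    have h1 : Y * Y ^ m ≤ Y ^ 80 := by
      rw [← pow_succ']
      exact Nat.pow_le_pow_right hY1 (by omega)
    calc Y * Y ^ m * (b1 * c1 ^ 2) ≤ Y ^ 80 * (b1 * c1 ^ 2) := Nat.mul_le_mul_right _ h1
      _ = Y ^ 80 * b1 * c1 ^ 2 := by ring
  rcases lt_or_ge (Y ^ 10) b1 with hX | hX
  · -- case X
    have h8 : 8 * Y ^ 2 ≤ 4 * b1 := by
      have h1 : 8 * Y ^ 2 ≤ Y ^ 8 * Y ^ 2 := Nat.mul_le_mul_right _
        (le_trans (by omega) (Nat.le_self_pow (by norm_num) Y))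
      have h2 : Y ^ 8 * Y ^ 2 = Y ^ 10 := by ring
      omega
    have k1 : 8 * (Y ^ 2 * c1) < c := by
      have h1 : 8 * Y ^ 2 * c1 ≤ 4 * b1 * c1 := Nat.mul_le_mul_right _ h8
      have h2 : 4 * b1 * c1 = 4 * (b1 * c1) := by ring
      have h3 : 8 * Y ^ 2 * c1 = 8 * (Y ^ 2 * c1) := by ring
      omega
    have k2 : 8 * (e1 * Y) < c := by
      have h0 : Y ≤ Y ^ 2 := Nat.le_self_pow (by norm_num) Y
      have h1 : 8 * Y * e1 ≤ 4 * b1 * e1 := Nat.mul_le_mul_right _ (by omega)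
      have h2 : 4 * b1 * e1 = 4 * (b1 * e1) := by ring
      have h3 : 8 * Y * e1 = 8 * (e1 * Y) := by ring
      omega
    obtain ⟨-, h5⟩ := caseX (2 * ε * (a * (μ : ℤ) ^ 2 - b * (ν : ℤ) ^ 2)) a b f e1 e2 c k μ ν Y c1
      (absT a b c1 μ ν Y ε haZ (by exact_mod_cast hac1) hbZ (by exact_mod_cast hbc1) hμZ hμYZ hνZ0
        hνYZ hε) haZ (by exact_mod_cast hac1) hbZ (by exact_mod_cast hbc1) hfZ
      (by exact_mod_cast hfc1) hνZ hνμZ hμYZ hYZ he2Z he21Z (by exact_mod_cast k1)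
      (by exact_mod_cast k2) hk
    have h6 : e1 ≤ 3 * (Y ^ 2 * c1) := by exact_mod_cast h5
    refine hfin 2 c (by norm_num) ?_
    calc c ≤ 16 * (a * f * e1) := hle1
      _ ≤ 16 * ((b1 * c1) * (3 * (Y ^ 2 * c1))) :=
          Nat.mul_le_mul_left _ (Nat.mul_le_mul haf1 h6)
      _ = 48 * (Y ^ 2 * (b1 * c1 ^ 2)) := by ring
      _ ≤ Y * (Y ^ 2 * (b1 * c1 ^ 2)) := Nat.mul_le_mul_right _ (by omega)
      _ = Y * Y ^ 2 * (b1 * c1 ^ 2) := by ring
  · -- case N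
    have hc1pos : 0 < c1 := by omega
    have hb1pos : 0 < b1 := by omega
    rcases hcase with ⟨h1, rfl, rfl⟩ | hrest
    · -- N1
      have haL : a ≤ Y ^ 10 := hab1.trans hX
      have k1 : 5 * (Y ^ 2 * Y ^ 10) ≤ c1 := by
        refine le_trans ?_ hc1
        have e3 : Y ^ 2 * Y ^ 10 = Y ^ 12 := by ring
        rw [e3]
        calc 5 * Y ^ 12 ≤ Y * Y ^ 12 := Nat.mul_le_mul_right _ (by omega)
          _ = Y ^ 13 := by ring
          _ ≤ Y ^ 100 := Nat.pow_le_pow_right hY1 (by norm_num)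
      have k2 : 4 * (e1 * Y) < c := by
        have h2 : e1 * Y ≤ a * c1 * e1 := by
          rw [mul_comm e1 Y]
          refine Nat.mul_le_mul_right _ ?_
          calc Y ≤ Y ^ 100 := Nat.le_self_pow (by norm_num) Y
            _ ≤ c1 := hc1
            _ ≤ a * c1 := Nat.le_mul_of_pos_left _ ha
        omega
      have h5 := caseN1 (2 * ε * (a * (μ : ℤ) ^ 2 - b1 * (ν : ℤ) ^ 2)) a b1 c1 e1 e2 c k μ ν Y
        (Y ^ 10) (absT a b1 (Y ^ 10) μ ν Y ε haZ (by exact_mod_cast haL) hbZ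
          (by exact_mod_cast hX) hμZ hμYZ hνZ0 hνYZ hε) haZ (by exact_mod_cast haL) hbZ
        (by exact_mod_cast hX) (by exact_mod_cast k1) hνZ hνμZ hμYZ hYZ he2Z he21Z
        (by exact_mod_cast k2) hk
      rcases h5 with h5 | h5
      · have h6 : c ≤ 4 * (c1 * Y) := by exact_mod_cast h5
        refine hfin 1 c (by norm_num) ?_
        calc c ≤ 4 * (c1 * Y) := h6
          _ ≤ Y * (c1 * Y) := Nat.mul_le_mul_right _ (by omega)
          _ = Y * Y * (1 * (1 * c1)) := by ring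
          _ ≤ Y * Y * (b1 * (c1 * c1)) := Nat.mul_le_mul_left _
              (Nat.mul_le_mul hb1pos (Nat.mul_le_mul_right _ hc1pos))
          _ = Y * Y ^ 1 * (b1 * c1 ^ 2) := by ring
      · have h6 : e1 ≤ 2 * c1 := by exact_mod_cast h5
        refine hfin 10 c (by norm_num) ?_
        calc c ≤ 16 * (a * c1 * e1) := hle1
          _ ≤ 16 * (Y ^ 10 * c1 * (2 * c1)) := Nat.mul_le_mul_left _
              (Nat.mul_le_mul (Nat.mul_le_mul_right _ haL) h6)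
          _ = 32 * (Y ^ 10 * (1 * c1 ^ 2)) := by ring
          _ ≤ Y * (Y ^ 10 * (b1 * c1 ^ 2)) := Nat.mul_le_mul (by omega)
              (Nat.mul_le_mul_left _ (Nat.mul_le_mul_right _ hb1pos))
          _ = Y * Y ^ 10 * (b1 * c1 ^ 2) := by ring
    · -- N2
      have hbeq : c1 = b ∧ f ≤ b1 := by
        rcases hrest with ⟨-, -, h2, h3⟩ | ⟨h1, h2, h3⟩
        · exact ⟨h3, h2.ge⟩
        · exact ⟨h3, by omega⟩
      obtain ⟨rfl, hfb1⟩ := hbeq
      have haL : a ≤ Y ^ 10 := hab1.trans hX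
      have hfL : f ≤ Y ^ 10 := hfb1.trans hX
      have k1 : 4 * c1 < c := by omega
      have k2 : 4 * e1 < c := by
        have : 1 * e1 ≤ b1 * e1 := Nat.mul_le_mul_right _ hb1pos
        omega
      have hkY := caseN2k (2 * ε * (a * (μ : ℤ) ^ 2 - c1 * (ν : ℤ) ^ 2)) a c1 f e1 e2 c k μ ν Y
        (absT a c1 c1 μ ν Y ε haZ (by exact_mod_cast hac1) hbZ le_rfl hμZ hμYZ hνZ0 hνYZ hε) haZ
        (by exact_mod_cast hac1) hbZ hfZ (by exact_mod_cast hfc1) hνZ hνμZ hμYZ hYZ he2Z he21Z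
        (by exact_mod_cast k1) (by exact_mod_cast k2) hk
      have hcZ : (c : ℤ) = a + f + e1 + 2 * (a * f * e1) + 2 * (F1 * (u1 * v1)) := by
        exact_mod_cast hc_1
      rw [hcZ] at hk
      have hbe : (c1 : ℤ) * e2 ≤ 4 * ((Y : ℤ) ^ 10 * e1) := by
        have h2 : f * (c1 * e2) ≤ f * (4 * (Y ^ 10 * e1)) := by
          have h3 : 4 * (c1 * f * e2) ≤ 4 * (f * (4 * (Y ^ 10 * e1))) := by
            calc 4 * (c1 * f * e2) ≤ c := hlt2.le
              _ ≤ 16 * (a * f * e1) := hle1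
              _ ≤ 16 * (Y ^ 10 * f * e1) := Nat.mul_le_mul_left _
                  (Nat.mul_le_mul_right _ (Nat.mul_le_mul_right _ haL))
              _ = 4 * (f * (4 * (Y ^ 10 * e1))) := by ring
          have h4 : c1 * f * e2 = f * (c1 * e2) := by ring
          rw [h4] at h3
          exact Nat.le_of_mul_le_mul_left h3 (by norm_num)
        have h5 := Nat.le_of_mul_le_mul_left h2 hf
        exact_mod_cast h5
      -- the hypothesis of IRR
      have hYZ0 : (0 : ℤ) ≤ Y := by linarith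
      have hYZ1 : (1 : ℤ) ≤ Y := by linarith
      have haLZ : (a : ℤ) ≤ (Y : ℤ) ^ 10 := by exact_mod_cast haL
      have hfLZ : (f : ℤ) ≤ (Y : ℤ) ^ 10 := by exact_mod_cast hfL
      have hF1L : (F1 : ℤ) ≤ (Y : ℤ) ^ 20 := by
        have h2 : F1 ≤ Y ^ 20 := by
          by_contra hcc
          have h3 : (Y ^ 20 + 1) * (Y ^ 20 + 1) ≤ F1 * F1 := Nat.mul_le_mul (by omega) (by omega)
          have h4 : a * f ≤ Y ^ 10 * Y ^ 10 := Nat.mul_le_mul haL hfL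
          have h5 : Y ^ 10 * Y ^ 10 = Y ^ 20 := by ring
          have h6 : 1 * Y ^ 20 ≤ Y ^ 20 * Y ^ 20 :=
            Nat.mul_le_mul_right _ (Nat.one_le_pow _ _ hY1)
          have h7 : (Y ^ 20 + 1) * (Y ^ 20 + 1) = Y ^ 20 * Y ^ 20 + 2 * Y ^ 20 + 1 := by ring
          have h8 : 0 < Y ^ 20 := Nat.pow_pos hY1
          omega
        exact_mod_cast h2
      have y22 : (Y : ℤ) ^ 2 * (Y ^ 20 * 100) ≤ Y ^ 23 := by
        have : (Y : ℤ) ^ 2 * (Y ^ 20 * 100) ≤ Y ^ 2 * (Y ^ 20 * Y) :=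
          mul_le_mul_of_nonneg_left (mul_le_mul_of_nonneg_left hYZ (by positivity)) (by positivity)
        refine this.trans (le_of_eq (by ring))
      have hV : |2 * k * (F1 : ℤ)| ≤ (Y : ℤ) ^ 23 := by
        rw [abs_mul, abs_mul, abs_of_nonneg (Int.natCast_nonneg F1)]
        have h2 : |k| * (F1 : ℤ) ≤ (Y : ℤ) ^ 2 * Y ^ 20 :=
          mul_le_mul hkY hF1L (Int.natCast_nonneg _) (by positivity)
        have h3 : |(2 : ℤ)| = 2 := abs_of_pos (by norm_num)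
        rw [h3]
        have h4 : 0 ≤ (Y : ℤ) ^ 2 * Y ^ 20 := by positivity
        have h5 : 2 * |k| * (F1 : ℤ) = 2 * (|k| * (F1 : ℤ)) := by ring
        rw [h5]
        linarith
      have hU : |(μ : ℤ) + k * (1 + 2 * (a * f))| ≤ (Y : ℤ) ^ 23 := by
        have h2 : (a : ℤ) * f ≤ (Y : ℤ) ^ 10 * Y ^ 10 :=
          mul_le_mul haLZ hfLZ hfZ (by positivity)
        have h2' : (Y : ℤ) ^ 10 * Y ^ 10 = Y ^ 20 := by ring
        have h0 : 0 ≤ (a : ℤ) * f := mul_nonneg haZ hfZ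
        have h3 : (1 : ℤ) ≤ Y ^ 20 := one_le_pow₀ hYZ1
        have h4 : |k * (1 + 2 * ((a : ℤ) * f))| ≤ (Y : ℤ) ^ 2 * (3 * Y ^ 20) := by
          rw [abs_mul, abs_of_nonneg (by linarith : (0 : ℤ) ≤ 1 + 2 * ((a : ℤ) * f))]
          exact mul_le_mul hkY (by linarith) (by linarith) (by positivity)
        have h5 : |(μ : ℤ)| ≤ (Y : ℤ) ^ 2 * Y ^ 20 := by
          rw [abs_of_nonneg hμZ]
          refine hμYZ.trans ?_
          have h6 : (Y : ℤ) * 1 ≤ Y ^ 2 * Y ^ 20 := by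
            refine mul_le_mul ?_ h3 (by norm_num) (by positivity)
            rw [sq]
            exact le_mul_of_one_le_right hYZ0 hYZ1
          linarith
        refine (abs_add_le _ _).trans ?_
        have h7 : 0 ≤ (Y : ℤ) ^ 2 * Y ^ 20 := by positivity
        linarith
      have haB : (a : ℤ) ≤ (Y : ℤ) ^ 23 :=
        haLZ.trans (pow_le_pow_right₀ hYZ1 (by norm_num))
      have hfB : (f : ℤ) ≤ (Y : ℤ) ^ 23 :=
        hfLZ.trans (pow_le_pow_right₀ hYZ1 (by norm_num))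
      have hNN : (u1 * v1) * (u1 * v1) = (a * e1 + 1) * (f * e1 + 1) := by
        rw [← hu1, ← hv1]; ring
      rcases hI a f e1 (u1 * v1) F1 ((μ : ℤ) + k * (1 + 2 * (a * f))) (2 * k * F1) (Y ^ 23) ha hf
        he1 hF1 hNN (one_le_pow₀ hYZ1) haB hfB hU hV with ⟨h2, h3⟩ | h2
      · exfalso
        have hF1pos : (F1 : ℤ) ≠ 0 := by
          intro h0
          have : F1 = 0 := by exact_mod_cast h0
          rw [this] at hF1
          omega
        have hk0 : k = 0 := by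
          rcases mul_eq_zero.1 h3 with h4 | h4
          · omega
          · exact absurd h4 hF1pos
        rw [hk0, zero_mul, add_zero] at h2
        omega
      · have h3 := caseN2 a c1 f e1 e2 k μ ν Y (u1 * v1) F1 ε hε haZ haLZ hfZ hfLZ
          (by exact_mod_cast hc1) hνZ hνμZ hμYZ hYZ he2Z hkY hk hbe (by
            have e3 : ((u1 * v1 : ℕ) : ℤ) = (u1 : ℤ) * v1 := by push_cast; ring
            rw [e3] at h2
            exact h2)
        have h4 : e1 ≤ Y ^ 72 * c1 := by exact_mod_cast h3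
        -- `c <= 16 Y^92 b`
        have h5 : c ≤ 16 * (Y ^ 92 * c1) := by
          calc c ≤ 16 * (a * f * e1) := hle1
            _ ≤ 16 * (Y ^ 10 * Y ^ 10 * (Y ^ 72 * c1)) := Nat.mul_le_mul_left _
                (Nat.mul_le_mul (Nat.mul_le_mul haL hfL) h4)
            _ = 16 * (Y ^ 92 * c1) := by ring
        refine hfin 0 c (by norm_num) ?_
        calc c ≤ 16 * (Y ^ 92 * c1) := h5
          _ ≤ Y * (Y ^ 92 * c1) := Nat.mul_le_mul_right _ (by omega)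
          _ ≤ Y * (Y ^ 100 * c1) := Nat.mul_le_mul_left _
              (Nat.mul_le_mul_right _ (Nat.pow_le_pow_right hY1 (by norm_num)))
          _ ≤ Y * (c1 * c1) := Nat.mul_le_mul_left _ (Nat.mul_le_mul_right _ hc1)
          _ = Y * (1 * (c1 * c1)) := by ring
          _ ≤ Y * (b1 * (c1 * c1)) := Nat.mul_le_mul_left _ (Nat.mul_le_mul_right _ hb1pos)
          _ = Y * Y ^ 0 * (b1 * c1 ^ 2) := by ring

end Pool.Agent.DIO.H4B
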