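import Pool.Agent.Helper40_Dio.FStmt

set_option autoImplicit false

/-! # DIO, Part F, module PS8 (helper4): type `s`, the end. -/

namespace Pool.Agent.DIO.H4

/-- the symmetric relation of Euler triples, sorted case -/
theorem sorted_euler (hN : NetStatement) (a Y x y z ρ σ τ : ℕ) (hx : 0 < x) (hxy : x < y)
    (hyz : y < z) (hρ : ρ * ρ = x * y + 1) (hσ : σ * σ = x * z + 1) (hτ : τ * τ = y * z + 1)
    (ha : Y ^ 17 < a) (x1 : a ≤ Y ^ 6 * x) (y1 : a ≤ Y ^ 6 * y)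
    (z1 : z ≤ Y ^ 5 * a) :
    ((x : ℤ) + y - z) ^ 2 = 4 * (x * y + 1) := by
  rcases hN x y z ρ σ τ hx hxy hyz hρ hσ hτ with h | ⟨g, u, v, w, h⟩
  · have h' : (z : ℤ) = x + y + 2 * ρ := by exact_mod_cast h
    have h2 : (ρ : ℤ) * ρ = x * y + 1 := by exact_mod_cast hρ
    rw [h']
    linear_combination 4 * h2
  · exfalso
    have h1 := h.c_gt
    have h2 := h.hg
    have h3 : x * y ≤ x * y * g := Nat.le_mul_of_pos_right _ h2
    have h4 : 4 * (x * y) < z := by omega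
    have h5 : a * a ≤ (Y ^ 6 * x) * (Y ^ 6 * y) := Nat.mul_le_mul x1 y1
    have h6 : (Y ^ 6 * x) * (Y ^ 6 * y) = Y ^ 12 * (x * y) := by ring
    have h7 : Y ^ 12 * (4 * (x * y)) ≤ Y ^ 12 * (Y ^ 5 * a) :=
      Nat.mul_le_mul_left _ (h4.le.trans z1)
    have h8 : Y ^ 12 * (Y ^ 5 * a) = Y ^ 17 * a := by ring
    have h9 : 4 * (a * a) ≤ Y ^ 17 * a := by
      rw [← h8]
      refine le_trans ?_ h7
      have : Y ^ 12 * (4 * (x * y)) = 4 * (Y ^ 12 * (x * y)) := by ring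
      rw [this, ← h6]
      omega
    have ha0 : 0 < a := lt_of_le_of_lt (Nat.zero_le _) ha
    have h10 : Y ^ 17 * a < a * a := Nat.mul_lt_mul_of_pos_right ha ha0
    omega

theorem euler_sym (hN : NetStatement) (a Y x y z ρ σ τ : ℕ) (hx : 0 < x) (hy : 0 < y)
    (hz : 0 < z) (hxy : x ≠ y) (hxz : x ≠ z) (hyz : y ≠ z) (hρ : ρ * ρ = x * y + 1)
    (hσ : σ * σ = x * z + 1) (hτ : τ * τ = y * z + 1)
    (ha : Y ^ 17 < a) (x1 : a ≤ Y ^ 6 * x) (y1 : a ≤ Y ^ 6 * y)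
    (z1 : a ≤ Y ^ 6 * z) (x2 : x ≤ Y ^ 5 * a) (y2 : y ≤ Y ^ 5 * a) (z2 : z ≤ Y ^ 5 * a) :
    ((x : ℤ) + y - z) ^ 2 = 4 * (x * y + 1) := by
  have hρ' : ρ * ρ = y * x + 1 := by rw [hρ]; ring
  have hσ' : σ * σ = z * x + 1 := by rw [hσ]; ring
  have hτ' : τ * τ = z * y + 1 := by rw [hτ]; ring
  rcases lt_or_gt_of_ne hxy with h1 | h1
  · rcases lt_or_gt_of_ne hyz with h2 | h2
    · exact sorted_euler hN a Y x y z ρ σ τ hx h1 h2 hρ hσ hτ ha x1 y1 z2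
    · rcases lt_or_gt_of_ne hxz with h3 | h3
      · have h := sorted_euler hN a Y x z y σ ρ τ hx h3 h2 hσ hρ hτ' ha x1 z1 y2
        linear_combination h
      · have h := sorted_euler hN a Y z x y σ τ ρ hz h3 h1 hσ' hτ' hρ ha z1 x1 y2
        linear_combination h
  · rcases lt_or_gt_of_ne hyz with h2 | h2
    · rcases lt_or_gt_of_ne hxz with h3 | h3
      · have h := sorted_euler hN a Y y x z ρ τ σ hy h1 h3 hρ' hτ hσ ha y1 x1 z2
        linear_combination h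
      · have h := sorted_euler hN a Y y z x τ ρ σ hy h2 h3 hτ hρ' hσ' ha y1 z1 x2
        linear_combination h
    · have h := sorted_euler hN a Y z y x τ σ ρ hz h2 h1 hτ' hσ' hρ' ha z1 y1 x2
      linear_combination h

/-- the lower extension of `{a, h, g}` -/
theorem lower (hN : NetStatement) (a h g p u q : ℕ) (ha : 0 < a) (hh : 0 < h) (hah : h ≠ a)
    (hag : 100 * a < g) (hhg : 100 * h < g) (hp : p * p = a * h + 1) (hu : u * u = a * g + 1)
    (hq : q * q = g * h + 1) :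
    ∃ k i j : ℕ, 0 < k ∧ k ≠ a ∧ k ≠ h ∧ i * i = a * k + 1 ∧ j * j = h * k + 1 ∧
      g = a + h + k + 2 * (a * h * k) + 2 * (p * (i * j)) ∧ u = a * j + p * i ∧
      q = h * i + p * j ∧ 4 * (a * h * k) < g ∧ g ≤ 16 * (a * h * k) := by
  have hp1 : p ≤ a + h := by
    by_contra hc
    have h1 : a + h + 1 ≤ p := by omega
    have h2 : (a + h + 1) * (a + h + 1) ≤ p * p := Nat.mul_le_mul h1 h1
    rw [hp] at h2
    nlinarith
  rcases lt_or_gt_of_ne hah with h1 | h1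
  · rcases hN h a g p q u hh h1 (by omega) (by rw [hp]; ring) (by rw [hq]; ring) hu with
      h2 | ⟨k, j, i, w, h2⟩
    · omega
    · refine ⟨k, i, j, h2.hg, h2.hgb, h2.hga, h2.hv, h2.hu, ?_, h2.t_eq, h2.s_eq, ?_, ?_⟩
      · have := h2.hc
        rw [this]; ring
      · have := h2.c_gt
        have e : a * h * k = h * a * k := by ring
        rw [e]; exact this
      · have := h2.c_le
        have e : a * h * k = h * a * k := by ring
        rw [e]; exact this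
  · rcases hN a h g p u q ha h1 (by omega) hp hu (by rw [hq]; ring) with
      h2 | ⟨k, i, j, w, h2⟩
    · omega
    · refine ⟨k, i, j, h2.hg, h2.hga, h2.hgb, h2.hu, h2.hv, ?_, h2.s_eq, h2.t_eq, h2.c_gt,
        h2.c_le⟩
      have := h2.hc
      rw [this]; ring

theorem ps8 (hN : NetStatement) : Ps8Statement := by
  intro a b c r s t g u v w h p q k0 ν lam Y hab hE hE2 hν hY hνY hlY H1 HR H2 H3 H4 H5
  have ha : 0 < a := hE.ha
  have hh : 0 < h := hE2.hg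
  have hu := hE2.hr
  have hp := hE2.hu
  have hq := hE2.hv
  have hr := hE2.s_eq
  have hY1 : 1 ≤ Y := by omega
  have hYp : ∀ n : ℕ, 0 < Y ^ n := fun n => Nat.pow_pos hY1
  -- sizes
  have A1 : Y ^ 35 < a * a := by
    have h1 : Y ^ 5 * Y ^ 35 < Y ^ 5 * (a * a) := by
      calc Y ^ 5 * Y ^ 35 = Y ^ 40 := by ring
        _ < a * h := H1
        _ ≤ a * (Y ^ 5 * a) := Nat.mul_le_mul_left _ H4
        _ = Y ^ 5 * (a * a) := by ring
    exact Nat.lt_of_mul_lt_mul_left h1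
  have A2 : Y ^ 17 < a := by
    by_contra hc
    rw [not_lt] at hc
    have h1 : a * a ≤ Y ^ 17 * Y ^ 17 := Nat.mul_le_mul hc hc
    have h2 : Y ^ 17 * Y ^ 17 ≤ Y ^ 35 := by
      rw [← pow_add]
      exact Nat.pow_le_pow_right hY1 (by norm_num)
    omega
  have h100 : ∀ n : ℕ, 1 ≤ n → 100 ≤ Y ^ n := fun n hn =>
    hY.trans (Nat.le_self_pow (by omega) Y)
  have B1 : 100 * a < g := by
    have h1 : Y ^ 5 * (100 * a) < Y ^ 5 * g := by
      calc Y ^ 5 * (100 * a) ≤ Y ^ 5 * (Y ^ 35 * a) :=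
            Nat.mul_le_mul_left _ (Nat.mul_le_mul_right _ (h100 35 (by norm_num)))
        _ = a * Y ^ 40 := by ring
        _ < a * (a * h) := Nat.mul_lt_mul_of_pos_left H1 ha
        _ = a ^ 2 * h := by ring
        _ ≤ Y ^ 5 * g := H2
    exact Nat.lt_of_mul_lt_mul_left h1
  have B2 : 100 * h < g := by
    have h1 : Y ^ 5 * (100 * h) < Y ^ 5 * g := by
      calc Y ^ 5 * (100 * h) ≤ Y ^ 5 * (Y ^ 30 * h) :=
            Nat.mul_le_mul_left _ (Nat.mul_le_mul_right _ (h100 30 (by norm_num)))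
        _ = Y ^ 35 * h := by ring
        _ < a * a * h := Nat.mul_lt_mul_of_pos_right A1 hh
        _ = a ^ 2 * h := by ring
        _ ≤ Y ^ 5 * g := H2
    exact Nat.lt_of_mul_lt_mul_left h1
  obtain ⟨k, i, j, hk, hka, hkh, hi, hj, hg, hu', hq', hg1, hg2⟩ :=
    lower hN a h g p u q ha hh hE2.hga B1 B2 hp hu hq
  have hah : 0 < a * h := Nat.mul_pos ha hh
  have K1 : a ≤ Y ^ 6 * k := by
    have h1 : a * h * a ≤ a * h * (Y ^ 6 * k) := by
      calc a * h * a = a ^ 2 * h := by ring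
        _ ≤ Y ^ 5 * g := H2
        _ ≤ Y ^ 5 * (16 * (a * h * k)) := Nat.mul_le_mul_left _ hg2
        _ = 16 * (Y ^ 5 * (a * h * k)) := by ring
        _ ≤ Y * (Y ^ 5 * (a * h * k)) := Nat.mul_le_mul_right _ (by omega)
        _ = a * h * (Y ^ 6 * k) := by ring
    exact Nat.le_of_mul_le_mul_left h1 hah
  have K2 : k ≤ Y ^ 5 * a := by
    have h1 : a * h * k ≤ a * h * (Y ^ 5 * a) := by
      calc a * h * k ≤ g := by omega
        _ ≤ Y ^ 5 * (a ^ 2 * h) := H3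
        _ = a * h * (Y ^ 5 * a) := by ring
    exact Nat.le_of_mul_le_mul_left h1 hah
  have hS : ((a : ℤ) + h - k) ^ 2 = 4 * (a * h + 1) :=
    euler_sym hN a Y a h k p i j ha hh hk (Ne.symm hE2.hga) (Ne.symm hka) (Ne.symm hkh) hp hi hj
      A2 (Nat.le_mul_of_pos_left _ (hYp 6)) H5 K1 (Nat.le_mul_of_pos_left _ (hYp 5)) H4 K2
  -- the exact relations
  have hpZ : (p : ℤ) * p = a * h + 1 := by exact_mod_cast hp
  have hiZ : (i : ℤ) * i = a * k + 1 := by exact_mod_cast hi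
  have hjZ : (j : ℤ) * j = h * k + 1 := by exact_mod_cast hj
  have hsq : ((a : ℤ) + h + k + 2 * (a * h * k)) ^ 2 = (2 * (p * (i * j))) ^ 2 := by
    have e : (2 * ((p : ℤ) * (i * j))) ^ 2 = 4 * ((p * p) * ((i * i) * (j * j))) := by ring
    rw [e, hpZ, hiZ, hjZ]
    linear_combination hS
  have hpij : (a : ℤ) + h + k + 2 * (a * h * k) = 2 * (p * (i * j)) := by
    have h1 : (0 : ℤ) ≤ (a : ℤ) + h + k + 2 * (a * h * k) := by positivity
    have h2 : (0 : ℤ) ≤ 2 * ((p : ℤ) * (i * j)) := by positivity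
    exact (pow_left_inj₀ h1 h2 two_ne_zero).1 hsq
  have hκ : ((p : ℤ) * i - a * j) ^ 2 = 1 := by
    have e : ((p : ℤ) * i - a * j) ^ 2 = (p * p) * (i * i) + a ^ 2 * (j * j) -
        a * (2 * (p * (i * j))) := by ring
    rw [e, ← hpij, hpZ, hiZ, hjZ]
    ring
  have hgZ : (g : ℤ) = 4 * (p * (i * j)) := by
    have : (g : ℤ) = a + h + k + 2 * (a * h * k) + 2 * (p * (i * j)) := by exact_mod_cast hg
    rw [this, hpij]; ring
  have huZ : (u : ℤ) = a * j + p * i := by exact_mod_cast hu'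
  have hqZ : (q : ℤ) = h * i + p * j := by exact_mod_cast hq'
  have hrZ : (r : ℤ) = a * q + u * p := by exact_mod_cast hr
  set κ : ℤ := (p : ℤ) * i - a * j with hκd
  have hr2 : (r : ℤ) = 4 * (p * p) * i - i - 2 * κ * p := by
    rw [hrZ, hqZ, huZ, hκd]
    linear_combination (-i : ℤ) * hpZ
  have hbr : 4 * ((p : ℤ) * i) * ((2 * lam + 1) * p - (4 * (ν : ℤ) ^ 2 + ν) * j) =
      (2 * lam + 1) * (i + 2 * κ * p) + a * (4 * (ν : ℤ) ^ 2 + 3 * ν - 2 * lam * (lam + 1)) -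
        h * (2 * (ν : ℤ) ^ 2 + ν) := by
    rw [hr2, hgZ] at HR
    linear_combination HR
  -- bounds for p and i
  have P1 : a ≤ Y ^ 3 * p := by
    by_contra hc
    rw [not_le] at hc
    have h1 : (Y ^ 3 * p) * (Y ^ 3 * p) < a * a := Nat.mul_lt_mul_of_lt_of_lt hc hc
    have h2 : a * a ≤ Y ^ 6 * (a * h) := by
      calc a * a ≤ a * (Y ^ 6 * h) := Nat.mul_le_mul_left _ H5
        _ = Y ^ 6 * (a * h) := by ring
    have h3 : (Y ^ 3 * p) * (Y ^ 3 * p) = Y ^ 6 * (a * h + 1) := by rw [← hp]; ring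
    have h4 : Y ^ 6 * (a * h) ≤ Y ^ 6 * (a * h + 1) := Nat.mul_le_mul_left _ (by omega)
    omega
  have I1 : a ≤ Y ^ 3 * i := by
    by_contra hc
    rw [not_le] at hc
    have h1 : (Y ^ 3 * i) * (Y ^ 3 * i) < a * a := Nat.mul_lt_mul_of_lt_of_lt hc hc
    have h2 : a * a ≤ Y ^ 6 * (a * k) := by
      calc a * a ≤ a * (Y ^ 6 * k) := Nat.mul_le_mul_left _ K1
        _ = Y ^ 6 * (a * k) := by ring
    have h3 : (Y ^ 3 * i) * (Y ^ 3 * i) = Y ^ 6 * (a * k + 1) := by rw [← hi]; ring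
    have h4 : Y ^ 6 * (a * k) ≤ Y ^ 6 * (a * k + 1) := Nat.mul_le_mul_left _ (by omega)
    omega
  have hup : ∀ x m : ℕ, m ≤ Y ^ 5 * a → x * x = a * m + 1 → x ≤ Y ^ 3 * a := by
    intro x m hm hx
    by_contra hc
    rw [not_le] at hc
    have h1 : (Y ^ 3 * a) * (Y ^ 3 * a) < x * x := Nat.mul_lt_mul_of_lt_of_lt hc hc
    have h2 : a * m ≤ Y ^ 5 * (a * a) := by
      calc a * m ≤ a * (Y ^ 5 * a) := Nat.mul_le_mul_left _ hm
        _ = Y ^ 5 * (a * a) := by ring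
    have h3 : (Y ^ 3 * a) * (Y ^ 3 * a) = Y * (Y ^ 5 * (a * a)) := by ring
    have h4 : 0 < Y ^ 5 * (a * a) := Nat.mul_pos (hYp 5) (Nat.mul_pos ha ha)
    have h5 : 2 * (Y ^ 5 * (a * a)) ≤ Y * (Y ^ 5 * (a * a)) :=
      Nat.mul_le_mul_right _ (by omega)
    omega
  have P2 := hup p h H4 hp
  have I2 := hup i k K2 hi
  -- the right side is small
  have hκ1 : |κ| ≤ 1 := by
    by_contra hc
    rw [not_le] at hc
    have h1 : (1 : ℤ) < |κ| ^ 2 := one_lt_pow₀ hc two_ne_zero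
    rw [sq_abs, hκ] at h1
    exact lt_irrefl _ h1
  have hYZ : (100 : ℤ) ≤ Y := by exact_mod_cast hY
  have haZ : (0 : ℤ) < a := by exact_mod_cast ha
  have hνZ : (ν : ℤ) ≤ Y := by exact_mod_cast hνY
  have hν0 : (0 : ℤ) ≤ ν := by positivity
  have hlZ : (lam : ℤ) ≤ Y := by exact_mod_cast hlY
  have hl0 : (0 : ℤ) ≤ lam := by positivity
  have hRHS : |(2 * lam + 1) * (i + 2 * κ * p) +
      a * (4 * (ν : ℤ) ^ 2 + 3 * ν - 2 * lam * (lam + 1)) - h * (2 * (ν : ℤ) ^ 2 + ν)| ≤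
      (Y : ℤ) ^ 8 * a := by
    have p2 : (p : ℤ) ≤ Y ^ 3 * a := by exact_mod_cast P2
    have i2 : (i : ℤ) ≤ Y ^ 3 * a := by exact_mod_cast I2
    have p0 : (0 : ℤ) ≤ p := by positivity
    have i0 : (0 : ℤ) ≤ i := by positivity
    have h2 : (h : ℤ) ≤ Y ^ 5 * a := by exact_mod_cast H4
    have h0 : (0 : ℤ) ≤ h := by positivity
    have t1 : |(2 * lam + 1) * (i + 2 * κ * p)| ≤ 3 * (Y : ℤ) * (3 * (Y ^ 3 * a)) := by
      rw [abs_mul]
      refine mul_le_mul ?_ ?_ (abs_nonneg _) (by positivity)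
      · rw [abs_of_nonneg (by positivity)]
        linarith
      · calc |(i : ℤ) + 2 * κ * p| ≤ |(i : ℤ)| + |2 * κ * p| := abs_add_le _ _
          _ = i + 2 * |κ| * p := by
              rw [abs_mul, abs_mul, abs_of_nonneg i0, abs_of_nonneg p0]
              norm_num
          _ ≤ i + 2 * 1 * p := by
              have := mul_le_mul_of_nonneg_right hκ1 p0
              linarith
          _ ≤ 3 * (Y ^ 3 * a) := by linarith
    have ν2 : (ν : ℤ) ^ 2 ≤ Y ^ 2 := pow_le_pow_left₀ hν0 hνZ 2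
    have l2 : (lam : ℤ) * (lam + 1) ≤ Y * (Y + 1) :=
      mul_le_mul hlZ (by linarith) (by positivity) (by positivity)
    have l20 : (0 : ℤ) ≤ lam * (lam + 1) := by positivity
    have Y2 : (Y : ℤ) ≤ Y ^ 2 := by
      rw [sq]
      exact le_mul_of_one_le_left (by linarith) (by linarith)
    have l3 : (lam : ℤ) * (lam + 1) ≤ 2 * Y ^ 2 := by
      refine l2.trans ?_
      have : (Y : ℤ) * (Y + 1) = Y ^ 2 + Y := by ring
      rw [this]
      linarith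
    have ν20 : (0 : ℤ) ≤ (ν : ℤ) ^ 2 := by positivity
    have t2 : |(a : ℤ) * (4 * (ν : ℤ) ^ 2 + 3 * ν - 2 * lam * (lam + 1))| ≤
        (a : ℤ) * (7 * Y ^ 2) := by
      rw [abs_mul, abs_of_pos haZ]
      refine mul_le_mul_of_nonneg_left ?_ haZ.le
      rw [abs_le]
      constructor <;> linarith
    have t3 : |(h : ℤ) * (2 * (ν : ℤ) ^ 2 + ν)| ≤ (Y : ℤ) ^ 5 * a * (3 * Y ^ 2) := by
      rw [abs_of_nonneg (by positivity)]
      exact mul_le_mul h2 (by linarith) (by positivity) (by positivity)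
    have t4 : |(2 * lam + 1) * (i + 2 * κ * p) +
      a * (4 * (ν : ℤ) ^ 2 + 3 * ν - 2 * lam * (lam + 1)) - h * (2 * (ν : ℤ) ^ 2 + ν)| ≤
      3 * (Y : ℤ) * (3 * (Y ^ 3 * a)) + a * (7 * Y ^ 2) + Y ^ 5 * a * (3 * Y ^ 2) :=
      (abs_sub _ _).trans (add_le_add ((abs_add_le _ _).trans (add_le_add t1 t2)) t3)
    refine t4.trans ?_
    have e1 : 3 * (Y : ℤ) * (3 * (Y ^ 3 * a)) + a * (7 * Y ^ 2) + Y ^ 5 * a * (3 * Y ^ 2) =
        a * (9 * (Y : ℤ) ^ 4 + 7 * Y ^ 2 + 3 * Y ^ 7) := by ring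
    rw [e1, mul_comm ((Y : ℤ) ^ 8) (a : ℤ)]
    refine mul_le_mul_of_nonneg_left ?_ haZ.le
    have y1 : (Y : ℤ) ^ 4 ≤ Y ^ 7 := pow_le_pow_right₀ (by linarith) (by norm_num)
    have y2 : (Y : ℤ) ^ 2 ≤ Y ^ 7 := pow_le_pow_right₀ (by linarith) (by norm_num)
    have y3 : 100 * (Y : ℤ) ^ 7 ≤ Y ^ 8 := by
      rw [pow_succ (Y : ℤ) 7, mul_comm]
      exact mul_le_mul_of_nonneg_left hYZ (by positivity)
    have y4 : (0 : ℤ) ≤ Y ^ 7 := by positivity
    linarith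
  -- the bracket vanishes
  have hB0 : ((2 * lam + 1) * p - (4 * (ν : ℤ) ^ 2 + ν) * j : ℤ) = 0 := by
    by_contra hne
    have h1 : (1 : ℤ) ≤ |(2 * lam + 1) * p - (4 * (ν : ℤ) ^ 2 + ν) * j| :=
      Int.one_le_abs hne
    have h2 : (4 * ((p : ℤ) * i)) ≤ (Y : ℤ) ^ 8 * a := by
      calc (4 * ((p : ℤ) * i)) = 4 * ((p : ℤ) * i) * 1 := (mul_one _).symm
        _ ≤ 4 * ((p : ℤ) * i) * |(2 * lam + 1) * p - (4 * (ν : ℤ) ^ 2 + ν) * j| :=
            mul_le_mul_of_nonneg_left h1 (by positivity)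
        _ = |4 * ((p : ℤ) * i) * ((2 * lam + 1) * p - (4 * (ν : ℤ) ^ 2 + ν) * j)| := by
            rw [abs_mul (4 * ((p : ℤ) * i)), abs_of_nonneg (by positivity : 0 ≤ 4 * ((p : ℤ) * i))]
        _ ≤ (Y : ℤ) ^ 8 * a := by rw [hbr]; exact hRHS
    have h3 : 4 * (p * i) ≤ Y ^ 8 * a := by exact_mod_cast h2
    have h4 : a * a ≤ (Y ^ 3 * p) * (Y ^ 3 * i) := Nat.mul_le_mul P1 I1
    have h5 : (Y ^ 3 * p) * (Y ^ 3 * i) = Y ^ 6 * (p * i) := by ring
    have h6 : Y ^ 6 * (4 * (p * i)) ≤ Y ^ 6 * (Y ^ 8 * a) := Nat.mul_le_mul_left _ h3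
    have h7 : Y ^ 6 * (Y ^ 8 * a) ≤ Y ^ 17 * a := by
      rw [← mul_assoc, ← pow_add]
      exact Nat.mul_le_mul_right _ (Nat.pow_le_pow_right hY1 (by norm_num))
    have h8 : Y ^ 17 * a < a * a := Nat.mul_lt_mul_of_pos_right A2 ha
    have h9 : Y ^ 6 * (4 * (p * i)) = 4 * (Y ^ 6 * (p * i)) := by ring
    omega
  -- the end
  have hcop : IsCoprime (p : ℤ) (j : ℤ) := by
    refine ⟨κ * i, -(κ * a), ?_⟩
    have : κ * i * p + -(κ * a) * j = κ ^ 2 := by rw [hκd]; ring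
    rw [this, hκ]
  have hdvd : (p : ℤ) ∣ 4 * (ν : ℤ) ^ 2 + ν := by
    refine hcop.dvd_of_dvd_mul_right ?_
    exact ⟨2 * lam + 1, by linear_combination -hB0⟩
  have hle : (p : ℤ) ≤ 4 * (ν : ℤ) ^ 2 + ν := by
    refine Int.le_of_dvd ?_ hdvd
    have : (1 : ℤ) ≤ ν := by exact_mod_cast hν
    positivity
  have hle2 : (p : ℤ) ≤ 5 * Y ^ 2 := by
    have ν2 : (ν : ℤ) ^ 2 ≤ Y ^ 2 := pow_le_pow_left₀ hν0 hνZ 2
    have Y2 : (Y : ℤ) ≤ Y ^ 2 := by
      rw [sq]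
      exact le_mul_of_one_le_left (by linarith) (by linarith)
    linarith
  have hle3 : p ≤ 5 * Y ^ 2 := by exact_mod_cast hle2
  have h1 : p * p ≤ (5 * Y ^ 2) * (5 * Y ^ 2) := Nat.mul_le_mul hle3 hle3
  have h2 : (5 * Y ^ 2) * (5 * Y ^ 2) = 25 * Y ^ 4 := by ring
  have h3 : 25 * Y ^ 4 ≤ Y ^ 40 := by
    calc 25 * Y ^ 4 ≤ Y ^ 36 * Y ^ 4 :=
          Nat.mul_le_mul_right _ (le_trans (by norm_num) (h100 36 (by norm_num)))
      _ = Y ^ 40 := by ring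
  omega

end Pool.Agent.DIO.H4
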